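import Pool.Agent.Helper51.PP.GoalsA2

/-!
# The number of ideals of norm at most `x`
-/

namespace Pool.Agent.Helper95.PP

open NumberField IsDedekindDomain Filter Topology

/-- The ideals of norm at most `x` are finitely many. -/
theorem finite_le (F : Type) [Field F] [NumberField F] (x : ℝ) :
    {I : Ideal (𝓞 F) | (Ideal.absNorm I : ℝ) ≤ x}.Finite := by
  refine (Ideal.finite_setOfPred_absNorm_le (S := 𝓞 F) ⌊x⌋₊).subset ?_
  intro I hI
  exact Nat.le_floor hI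

theorem a2_cnt : Pool.Agent.Helper51.PP.A2_CNT := by
  intro F _ _
  have hfin : ∀ x : ℝ, {I : Ideal (𝓞 F) | I ≠ ⊥ ∧ (Ideal.absNorm I : ℝ) ≤ x}.Finite :=
    fun x => (finite_le F x).subset fun I hI => hI.2
  have h1 := NumberField.Ideal.tendsto_norm_le_div_atTop F
  set κ : ℝ := (2 ^ InfinitePlace.nrRealPlaces F * (2 * Real.pi) ^ InfinitePlace.nrComplexPlaces F *
    Units.regulator F * classNumber F) / (Units.torsionOrder F * Real.sqrt |(discr F : ℝ)|) with hκ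
  have h2 : ∀ᶠ s : ℝ in atTop,
      (Nat.card {I : Ideal (𝓞 F) // Ideal.absNorm I ≤ s} : ℝ) / s < κ + 1 :=
    h1.eventually_lt_const (by linarith)
  obtain ⟨x₀, hx₀⟩ := eventually_atTop.1 h2
  set x₁ : ℝ := max x₀ 1 with hx₁
  have hx₁1 : 1 ≤ x₁ := le_max_right _ _
  -- the counting function
  have hcard : ∀ x : ℝ, ({I : Ideal (𝓞 F) | I ≠ ⊥ ∧ (Ideal.absNorm I : ℝ) ≤ x}.ncard : ℝ) ≤
      (Nat.card {I : Ideal (𝓞 F) // (Ideal.absNorm I : ℝ) ≤ x} : ℝ) := by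
    intro x
    have e1 : Nat.card {I : Ideal (𝓞 F) // (Ideal.absNorm I : ℝ) ≤ x} =
        {I : Ideal (𝓞 F) | (Ideal.absNorm I : ℝ) ≤ x}.ncard := rfl
    rw [e1]
    have h3 : {I : Ideal (𝓞 F) | I ≠ ⊥ ∧ (Ideal.absNorm I : ℝ) ≤ x} ⊆
        {I : Ideal (𝓞 F) | (Ideal.absNorm I : ℝ) ≤ x} := fun I hI => hI.2
    exact_mod_cast Set.ncard_le_ncard h3 (finite_le F x)
  have hmono : ∀ x y : ℝ, x ≤ y → ({I : Ideal (𝓞 F) | I ≠ ⊥ ∧ (Ideal.absNorm I : ℝ) ≤ x}.ncard : ℝ) ≤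
      ({I : Ideal (𝓞 F) | I ≠ ⊥ ∧ (Ideal.absNorm I : ℝ) ≤ y}.ncard : ℝ) := by
    intro x y hxy
    have h3 : {I : Ideal (𝓞 F) | I ≠ ⊥ ∧ (Ideal.absNorm I : ℝ) ≤ x} ⊆
        {I : Ideal (𝓞 F) | I ≠ ⊥ ∧ (Ideal.absNorm I : ℝ) ≤ y} := fun I hI =>
      ⟨hI.1, hI.2.trans hxy⟩
    exact_mod_cast Set.ncard_le_ncard h3 (hfin y)
  set K : ℝ := ({I : Ideal (𝓞 F) | I ≠ ⊥ ∧ (Ideal.absNorm I : ℝ) ≤ x₁}.ncard : ℝ) with hK
  have hK0 : 0 ≤ K := by positivity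
  refine ⟨K + |κ| + 2, by positivity, fun x hx => ⟨hfin x, ?_⟩⟩
  rcases lt_or_ge x 1 with hx1 | hx1
  · -- no ideals
    have : {I : Ideal (𝓞 F) | I ≠ ⊥ ∧ (Ideal.absNorm I : ℝ) ≤ x} = ∅ := by
      rw [Set.eq_empty_iff_forall_notMem]
      rintro I ⟨hI, hIx⟩
      have h3 : Ideal.absNorm I ≠ 0 := by
        rw [Ne, Ideal.absNorm_eq_zero_iff]
        exact hI
      have h4 : (1 : ℝ) ≤ (Ideal.absNorm I : ℝ) := by
        exact_mod_cast Nat.one_le_iff_ne_zero.2 h3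
      linarith
    rw [this, Set.ncard_empty]
    simp only [Nat.cast_zero]
    positivity
  · rcases le_total x x₁ with hxx | hxx
    · calc ({I : Ideal (𝓞 F) | I ≠ ⊥ ∧ (Ideal.absNorm I : ℝ) ≤ x}.ncard : ℝ) ≤ K := hmono _ _ hxx
        _ ≤ (K + |κ| + 2) * 1 := by
          have := abs_nonneg κ
          linarith
        _ ≤ (K + |κ| + 2) * x := by
          refine mul_le_mul_of_nonneg_left hx1 ?_
          positivity
    · have h3 := hx₀ x ((le_max_left _ _).trans hxx)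
      have hx0 : 0 < x := by linarith
      rw [div_lt_iff₀ hx0] at h3
      calc ({I : Ideal (𝓞 F) | I ≠ ⊥ ∧ (Ideal.absNorm I : ℝ) ≤ x}.ncard : ℝ) ≤ (κ + 1) * x :=
            (hcard x).trans h3.le
        _ ≤ (K + |κ| + 2) * x := by
          refine mul_le_mul_of_nonneg_right ?_ hx0.le
          have := le_abs_self κ
          linarith

end Pool.Agent.Helper95.PP
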