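import Pool.Agent.Helper79.PP.DMAP

/-!
# Project PP (MP_fc6b1e_nt), packet PP-DCMP: comparison of the two families of fields
-/

set_option autoImplicit false

namespace Pool.Agent.Helper95.PP

open NumberField Polynomial Module IsDedekindDomain TensorProduct Pool.Agent.Helper51.SigLeo
open Pool.Agent.Helper51.RP Pool.Agent.Helper42.RD Pool.Agent.Helper11.LE Pool.Agent.Helper11.PP
open Pool.Agent.Helper79.PP (clp_eq clp_one clp_mul clp_eq_one)

/-! ### The ramified primes are finitely many -/

/-- In an extension of number fields only finitely many primes ramify. -/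
theorem ram_finite (K N : Type) [Field K] [NumberField K] [Field N] [NumberField N] [Algebra K N] :
    {v : HeightOneSpectrum (𝓞 K) | RamIn N v}.Finite := by
  have hfd : FiniteDimensional K N := Module.Finite.of_restrictScalars_finite ℚ K N
  have hD : differentIdeal (𝓞 K) (𝓞 N) ≠ ⊥ := differentIdeal_ne_bot
  have h1 : {V : HeightOneSpectrum (𝓞 N) | V.asIdeal ∣ differentIdeal (𝓞 K) (𝓞 N)}.Finite :=
    Ideal.finite_factors hD
  refine (h1.biUnion (t := fun V => {v : HeightOneSpectrum (𝓞 K) | Ab V v}) ?_).subset ?_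
  · intro V _
    refine Set.Subsingleton.finite ?_
    intro v hv v' hv'
    exact HeightOneSpectrum.ext (hv.symm.trans hv')
  · rintro v ⟨V, hV, hV2⟩
    refine Set.mem_biUnion (x := V) ?_ hV
    have hm : v.asIdeal.IsMaximal := v.isMaximal
    have h2 := pow_sub_one_dvd_differentIdeal (A := 𝓞 K) (B := 𝓞 N) V.asIdeal 2 v.ne_bot
      (Ideal.dvd_iff_le.2 hV2)
    simpa using h2

theorem norm_pos {K : Type} [Field K] [NumberField K] (v : HeightOneSpectrum (𝓞 K)) :
    1 ≤ Ideal.absNorm v.asIdeal := by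
  rw [Nat.one_le_iff_ne_zero, Ne, Ideal.absNorm_eq_zero_iff]
  exact v.ne_bot

theorem cond_eq (K N : Type) [Field K] [NumberField K] [Field N] [NumberField N] [Algebra K N] :
    cond K N = ∏ v ∈ (ram_finite K N).toFinset, Ideal.absNorm v.asIdeal := by
  unfold Pool.Agent.Helper11.PP.cond
  exact finprod_mem_eq_finite_toFinset_prod _ (ram_finite K N)

theorem cond_pos (K N : Type) [Field K] [NumberField K] [Field N] [NumberField N] [Algebra K N] :
    1 ≤ cond K N := by
  rw [cond_eq]
  exact Finset.one_le_prod' fun v _ => norm_pos v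

theorem cond_le (K N N' N'' : Type) [Field K] [NumberField K] [Field N] [NumberField N]
    [Algebra K N] [Field N'] [NumberField N'] [Algebra K N'] [Field N''] [NumberField N'']
    [Algebra K N'']
    (h : ∀ v : HeightOneSpectrum (𝓞 K), RamIn N'' v → RamIn N v ∨ RamIn N' v) :
    cond K N'' ≤ cond K N * cond K N' := by
  classical
  rw [cond_eq K N, cond_eq K N', cond_eq K N'', ← Finset.prod_union_inter]
  have h1 : (ram_finite K N'').toFinset ⊆
      (ram_finite K N).toFinset ∪ (ram_finite K N').toFinset := by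
    intro v hv
    rw [Set.Finite.mem_toFinset] at hv
    rw [Finset.mem_union, Set.Finite.mem_toFinset, Set.Finite.mem_toFinset]
    exact h v hv
  calc ∏ v ∈ (ram_finite K N'').toFinset, Ideal.absNorm v.asIdeal
      ≤ ∏ v ∈ (ram_finite K N).toFinset ∪ (ram_finite K N').toFinset,
          Ideal.absNorm v.asIdeal :=
        Finset.prod_le_prod_of_subset_of_one_le' h1 fun v _ _ => norm_pos v
    _ ≤ _ := Nat.le_mul_of_pos_right _ (Finset.one_le_prod' fun v _ => norm_pos v)

/-! ### Elements of type `ω` -/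

theorem om_div {p : ℕ} (hp : p.Prime) {K K₁ : Type} [Field K] [Field K₁] [Algebra K K₁] {ε : K₁}
    (hε : IsPrimitiveRoot ε p) {a d : K₁} (hd : d ≠ 0) (h1 : OmType p K ε a)
    (h2 : OmType p K ε d) : OmType p K ε (a / d) := by
  intro τ
  obtain ⟨n, c, e1, e2⟩ := h1 τ
  obtain ⟨m, c', f1, f2⟩ := h2 τ
  have hε0 : ε ≠ 0 := hε.ne_zero hp.ne_zero
  have h3 : ε ^ ((m : ℤ) - n) = 1 := by
    rw [zpow_sub₀ hε0, zpow_natCast, zpow_natCast, ← e1, ← f1]
    exact div_self ((map_ne_zero τ).2 hε0)
  obtain ⟨k, hk⟩ := (hε.zpow_eq_one_iff_dvd _).1 h3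
  have h4 : d ^ m = d ^ n * (d ^ k) ^ p := by
    have h5 : (m : ℤ) = n + k * p := by rw [mul_comm k, ← hk]; ring
    rw [← zpow_natCast d m, h5, zpow_add₀ hd, zpow_mul, zpow_natCast, zpow_natCast]
  refine ⟨n, c / (d ^ k * c'), e1, ?_⟩
  rw [map_div₀, e2, f2, h4, div_pow, div_pow, mul_pow, mul_assoc, mul_div_mul_comm]

theorem gen_inv {p : ℕ} {K K₁ : Type} [Field K] [Field K₁] {j : K₁ →+* AlgebraicClosure K}
    {N : IntermediateField K (AlgebraicClosure K)} {a : K₁ˣ} (h : Gen p j a N) :
    Gen p j a⁻¹ N := by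
  intro s hs g hg hg'
  have h1 : (s⁻¹) ^ p = j (a : K₁) := by
    rw [inv_pow, hs, Units.val_inv_eq_inv_val, map_inv₀, inv_inv]
  have h2 := h _ h1 g hg hg'
  rw [map_inv₀] at h2
  exact inv_injective h2

theorem d_cmp (h1 : D_MAP) (h2 : D_PRD) (h3 : D_IDX) (h4 : D_BFN) :
    Pool.Agent.Helper11.PP.D_CMP := by
  intro p hpF K _ _
  classical
  have hp : p.Prime := hpF.out
  have hpne : NeZero p := ⟨hp.ne_zero⟩
  obtain ⟨ζ, hζ⟩ := HasEnoughRootsOfUnity.exists_primitiveRoot (AlgebraicClosure K) p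
  set K₁ : IntermediateField K (AlgebraicClosure K) := IntermediateField.adjoin K {ζ} with hK₁
  have hζmem : ζ ∈ K₁ := IntermediateField.mem_adjoin_simple_self K ζ
  have hK₁fin : FiniteDimensional K K₁ :=
    IntermediateField.adjoin.finiteDimensional (Algebra.IsIntegral.isIntegral ζ)
  have hcyc : IsCyclotomicExtension {p} K K₁ :=
    hζ.intermediateField_adjoin_isCyclotomicExtension (K := K)
  have hK₁gal : IsGalois K K₁ := IsCyclotomicExtension.isGalois {p} K K₁
  have hnfK₁ : NumberField K₁ := NumberField.of_module_finite K K₁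
  set ε : K₁ := ⟨ζ, hζmem⟩ with hε
  have hεp : IsPrimitiveRoot ε p :=
    IsPrimitiveRoot.of_map_of_injective (f := K₁.val) hζ K₁.val.injective
  have hC : Cyc p K K₁ ε :=
    { prim := hεp
      gal := hK₁gal
      gen := by
        intro σ hσ
        apply AlgEquiv.coe_toAlgHom_injective
        apply IntermediateField.adjoin_algHom_ext
        intro x hx
        obtain rfl := Set.mem_singleton_iff.1 hx
        exact hσ }
  set j : K₁ →+* AlgebraicClosure K := algebraMap K₁ (AlgebraicClosure K) with hj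
  have hjK : ∀ x : K, j (algebraMap K K₁ x) = algebraMap K (AlgebraicClosure K) x := fun _ => rfl
  obtain ⟨nf, hnf, hfib, hA, -⟩ := h1 p K K₁ ε hC j hjK
  obtain ⟨F, hF, hF2⟩ := h3 p K K₁ ε hC
  -- the fields are number fields
  have hnum : ∀ N ∈ CycN p K, NumberField N := by
    intro N hN
    have : FiniteDimensional K N := by
      apply Module.finite_of_finrank_pos
      rw [hN.1]
      exact hp.pos
    exact NumberField.of_module_finite K N
  -- the constants
  set Cc : K₁ˣ → ℕ := fun d => if Pw p d then 1 else cond K (nf (clp p d)) with hCc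
  set C : ℕ := F.card * p + ∑ d ∈ F, Cc d with hCdef
  refine ⟨C, fun X => ?_⟩
  have hFC : F.card * p ≤ C := Nat.le_add_right _ _
  have hCd : ∀ d ∈ F, Cc d ≤ C := fun d hd =>
    (Finset.single_le_sum (f := Cc) (fun _ _ => Nat.zero_le _) hd).trans (Nat.le_add_left _ _)
  -- the data attached to a field
  have hdat : ∀ N ∈ CycN p K, ∃ (a d : K₁ˣ), nf (clp p a) = N ∧ clp p a ∈ BSet p K ε ∧
      OmType p K ε (a : K₁) ∧ d ∈ F ∧ NiceU p (a / d) := by
    intro N hN
    have h5 : {c | c ∈ BSet p K ε ∧ nf c = N}.Nonempty := by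
      apply Set.nonempty_of_ncard_ne_zero
      rw [hfib N hN]
      have := hp.two_le
      omega
    obtain ⟨c, hc, hcN⟩ := h5
    obtain ⟨hc1, a, hac, hom⟩ := hc
    obtain ⟨d, hd, hni⟩ := hF2 a hom
    exact ⟨a, d, by rw [hac]; exact hcN, by rw [hac]; exact ⟨hc1, a, hac, hom⟩, hom, hd, hni⟩
  choose! fa fd hf using hdat
  -- the two families
  set S : Set (IntermediateField K (AlgebraicClosure K)) := {N | N ∈ CycN p K ∧ cond K N ≤ X}
    with hS
  have hSf : S.Finite := h4 p K X
  set T : Set (IntermediateField K (AlgebraicClosure K)) :=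
    {N | N ∈ CycF p K ∧ cond K N ≤ C * X} with hT
  have hTf : T.Finite := (h4 p K (C * X)).subset fun N hN => ⟨⟨hN.1.1, hN.1.2.1⟩, hN.2⟩
  set A : Set (ClP p K₁) := {c | c ∈ BSet p K ε ∧ nf c ∈ T} with hAdef
  have hAsub : A = ⋃ N ∈ T, {c | c ∈ BSet p K ε ∧ nf c = N} := by
    ext c
    simp only [hAdef, Set.mem_ofPred_eq, Set.mem_iUnion, exists_prop]
    constructor
    · rintro ⟨x, y⟩
      exact ⟨nf c, y, x, rfl⟩
    · rintro ⟨N, y, x, rfl⟩
      exact ⟨x, y⟩
  have hfibf : ∀ N ∈ T, {c | c ∈ BSet p K ε ∧ nf c = N}.Finite := by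
    intro N hN
    apply Set.finite_of_ncard_ne_zero
    rw [hfib N ⟨hN.1.1, hN.1.2.1⟩]
    have := hp.two_le
    omega
  have hAf : A.Finite := by
    rw [hAsub]
    exact hTf.biUnion hfibf
  have hAcard : A.ncard ≤ T.ncard * (p - 1) := by
    have h5 : A.ncard = ∑ N ∈ hTf.toFinset, {c ∈ hAf.toFinset | nf c = N}.card := by
      rw [Set.ncard_eq_toFinset_card _ hAf]
      exact Finset.card_eq_sum_card_fiberwise fun c hc => by
        have h6 : c ∈ A := by simpa using hc
        simpa using h6.2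
    rw [h5, Set.ncard_eq_toFinset_card _ hTf]
    refine Finset.sum_le_card_nsmul _ _ _ fun N hN => ?_
    have hN' : N ∈ T := by simpa using hN
    rw [← hfib N ⟨hN'.1.1, hN'.1.2.1⟩, Set.ncard_eq_toFinset_card _ (hfibf N hN')]
    apply Finset.card_le_card
    intro c hc
    rw [Finset.mem_filter, Set.Finite.mem_toFinset] at hc
    rw [Set.Finite.mem_toFinset]
    exact ⟨hc.1.1, hc.2⟩
  -- the map
  set G : Finset (K₁ˣ × ClP p K₁) := F ×ˢ insert 1 hAf.toFinset with hG
  have hmaps : ∀ N ∈ hSf.toFinset, (fd N, clp p (fa N / fd N)) ∈ G := by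
    intro N hN
    have hN' : N ∈ S := by simpa using hN
    obtain ⟨e1, e2, e3, e4, e5⟩ := hf N hN'.1
    rw [hG, Finset.mem_product]
    refine ⟨e4, ?_⟩
    rw [Finset.mem_insert, Set.Finite.mem_toFinset]
    by_cases hq : clp p (fa N / fd N) = 1
    · exact Or.inl hq
    · right
      have hom : OmType p K ε ((fa N / fd N : K₁ˣ) : K₁) := by
        rw [Units.val_div_eq_div_val]
        exact om_div hp hεp (fd N).ne_zero e3 (hF _ e4)
      have hqB : clp p (fa N / fd N) ∈ BSet p K ε := ⟨hq, _, rfl, hom⟩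
      have hqA : clp p (fa N / fd N) ∈ ASet p K ε := ⟨hq, _, rfl, hom, e5⟩
      have hqF := (hA _ hqB).1 hqA
      refine ⟨hqB, hqF, ?_⟩
      by_cases hpw : Pw p (fd N)
      · -- the same class
        have h6 : clp p (fa N / fd N) = clp p (fa N) := by
          obtain ⟨y, hy⟩ := hpw
          rw [eq_comm, clp_eq]
          refine ⟨y⁻¹, ?_⟩
          rw [hy, div_eq_mul_inv, inv_pow]
        rw [h6, e1]
        have h7 : 1 ≤ C := by
          have h8 := hCd _ e4
          rw [hCc] at h8
          simp only [if_pos hpw] at h8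
          exact h8
        calc cond K N ≤ 1 * X := by rw [one_mul]; exact hN'.2
          _ ≤ C * X := Nat.mul_le_mul_right _ h7
      · have hdB : clp p (fd N) ∈ BSet p K ε :=
          ⟨fun h => hpw (clp_eq_one.1 h), fd N, rfl, hF _ e4⟩
        obtain ⟨g1, g2⟩ := hnf _ hdB
        obtain ⟨g3, g4⟩ := hnf _ e2
        obtain ⟨g5, g6⟩ := hnf _ hqB
        have hnN := hnum _ g3
        have hnN' := hnum _ g1
        have hnN'' := hnum _ g5
        have hle : cond K (nf (clp p (fa N / fd N))) ≤
            cond K (nf (clp p (fa N))) * cond K (nf (clp p (fd N))) := by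
          apply cond_le
          intro v hv
          refine h2 p K K₁ ε hC j hjK _ g3 _ g1 _ g5 (fa N) (fd N)⁻¹ ?_ (g4 _ rfl)
            (gen_inv (g2 _ rfl)) ?_ v hv
          · rw [← div_eq_mul_inv, ← clp_eq_one]
            exact hq
          · rw [← div_eq_mul_inv]
            exact g6 _ rfl
        have h7 : cond K (nf (clp p (fd N))) ≤ C := by
          have h8 := hCd _ e4
          rw [hCc] at h8
          simp only [if_neg hpw] at h8
          exact h8
        rw [e1] at hle
        calc cond K (nf (clp p (fa N / fd N))) ≤ cond K N * cond K (nf (clp p (fd N))) := hle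
          _ ≤ X * C := Nat.mul_le_mul hN'.2 h7
          _ = C * X := mul_comm _ _
  have hinj : Set.InjOn (fun N => (fd N, clp p (fa N / fd N))) hSf.toFinset := by
    intro N hN N' hN' he
    have hN1 : N ∈ S := by simpa using hN
    have hN2 : N' ∈ S := by simpa using hN'
    obtain ⟨e1, -⟩ := hf N hN1.1
    obtain ⟨f1, -⟩ := hf N' hN2.1
    simp only [Prod.mk.injEq] at he
    obtain ⟨x1, x2⟩ := he
    have h6 : clp p (fa N) = clp p (fa N') := by
      have h7 : clp p (fa N) = clp p (fa N / fd N) * clp p (fd N) := by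
        rw [← clp_mul, div_mul_cancel]
      have h8 : clp p (fa N') = clp p (fa N' / fd N') * clp p (fd N') := by
        rw [← clp_mul, div_mul_cancel]
      rw [h7, h8, x2, x1]
    rw [← e1, ← f1, h6]
  have hcard : S.ncard ≤ F.card * (A.ncard + 1) := by
    rw [Set.ncard_eq_toFinset_card _ hSf]
    refine (Finset.card_le_card_of_injOn _ hmaps hinj).trans ?_
    rw [hG, Finset.card_product]
    refine Nat.mul_le_mul_left _ ((Finset.card_insert_le _ _).trans ?_)
    rw [Set.ncard_eq_toFinset_card _ hAf]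
  calc S.ncard ≤ F.card * (A.ncard + 1) := hcard
    _ ≤ F.card * (T.ncard * (p - 1) + 1) :=
        Nat.mul_le_mul_left _ (Nat.add_le_add_right hAcard 1)
    _ ≤ F.card * ((T.ncard + 1) * p) := by
        refine Nat.mul_le_mul_left _ ?_
        have h9 := hp.pos
        calc T.ncard * (p - 1) + 1 ≤ T.ncard * p + 1 * p :=
              Nat.add_le_add (Nat.mul_le_mul_left _ (Nat.sub_le _ _)) (by omega)
          _ = (T.ncard + 1) * p := by ring
    _ = F.card * p * (T.ncard + 1) := by ring
    _ ≤ C * (T.ncard + 1) := Nat.mul_le_mul_right _ hFC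

end Pool.Agent.Helper95.PP
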